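import Pool.Agent.H78.CT

namespace Pool.Agent.Results.MP_9704e3_al.Infinite

open Pool.Agent.H78.CT

/-- The group generated by horizontal class transpositions has infinite width. -/
theorem result (n : ℕ) : ∃ g ∈ Subgroup.closure H, ¬ ∃ l : List (Equiv.Perm ℤ),
    l.length ≤ n ∧ (∀ σ ∈ l, σ ∈ H) ∧ l.prod = g :=
  main n

end Pool.Agent.Results.MP_9704e3_al.Infinite
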